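import Mathlib
import Pool.Agent.Helper47.M.Defs
import Pool.Agent.Helper76.CY.CommonZero
import Pool.Agent.Helper76.M.T

/-!
# Theorem M: existence of a dominant component (`exists_dom`)

A generic point over `K` of the other factors and one more coordinate, in an algebraically closed
field, exists by `exists_common_zero`; the kernel of the evaluation is the component.
-/

set_option autoImplicit false

namespace Pool.Agent.Helper64.M

open MvPolynomial AlgebraicGeometry CategoryTheory Pool.Agent.Helper15 Pool.Agent.Helper47.M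

variable {k l : ℕ} {N : Fin k → ℕ} {d : Fin l → Fin k → ℕ}

section basic

variable {e : Fin k → ℕ} {S S' : Type*} [CommRing S] [CommRing S']

theorem fv_map' (f : S →+* S') (a : Tn N e → S) (x : Pt N S) :
    f (fv a x) = fv (fun m => f (a m)) (fun r i => f (x r i)) := by
  simp only [fv, tv, map_sum, map_mul, map_prod]

theorem fv_scale' (a : Tn N e → S) (x : Pt N S) (j : Fin k) (u : S) :
    fv a (Function.update x j fun i => u * x j i) = u ^ e j * fv a x := by
  unfold fv tv
  rw [Finset.mul_sum]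
  refine Finset.sum_congr rfl fun m _ => ?_
  have h : ∀ r, ∏ t, (Function.update x j fun i => u * x j i) r (m r t) =
      (if r = j then u ^ e j else 1) * ∏ t, x r (m r t) := by
    intro r
    by_cases hr : r = j
    · subst hr
      rw [if_pos rfl, Function.update_self, Finset.prod_mul_distrib, Finset.prod_const,
        Finset.card_univ, Fintype.card_fin]
    · rw [if_neg hr, Function.update_of_ne hr, one_mul]
  rw [Finset.prod_congr rfl fun r _ => h r, Finset.prod_mul_distrib,
    Finset.prod_ite_eq' Finset.univ j, if_pos (Finset.mem_univ j)]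
  ring

end basic

section alg

variable {K Ω : Type} [Field K] [Field Ω] [Algebra K Ω]

theorem isAlg_mono {A B : IntermediateField K Ω} (h : A ≤ B) {z : Ω} (hz : IsAlgebraic A z) :
    IsAlgebraic B z := by
  obtain ⟨p, hp, h0⟩ := hz
  refine ⟨p.map (IntermediateField.inclusion h).toRingHom, ?_, ?_⟩
  · rw [Ne, Polynomial.map_eq_zero_iff]
    · exact hp
    · exact (IntermediateField.inclusion h).toRingHom.injective
  · rw [Polynomial.aeval_def, Polynomial.eval₂_map]
    exact h0

/-- The transcendence degree over `Bf K x {s}`. -/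
theorem exists_basis (x : Pt N Ω) (s : Fin k) (hx : Algebra.IsAlgebraic (Bf K x ∅) Ω) :
    ∃ t : Set Ω, t ⊆ Set.range (x s) ∧
      IsTranscendenceBasis (Bf K x {s}) ((↑) : t → Ω) := by
  have h1 : Bf K x ∅ ≤ (IntermediateField.adjoin (Bf K x {s}) (Set.range (x s))).restrictScalars
      K := by
    rw [Bf, IntermediateField.adjoin_le_iff]
    rintro y ⟨j, -, i, rfl⟩
    rw [SetLike.mem_coe, IntermediateField.mem_restrictScalars]
    by_cases hj : j = s
    · subst hj
      exact IntermediateField.subset_adjoin _ _ ⟨i, rfl⟩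
    · have h2 : x j i ∈ Bf K x {s} := IntermediateField.subset_adjoin _ _ ⟨j, hj, i, rfl⟩
      exact (IntermediateField.adjoin (Bf K x {s}) (Set.range (x s))).algebraMap_mem
        (⟨x j i, h2⟩ : Bf K x {s})
  have h2 : Algebra.IsAlgebraic
      (IntermediateField.adjoin (Bf K x {s}) (Set.range (x s))) Ω := by
    refine ⟨fun z => ?_⟩
    exact isAlg_mono h1 (hx.isAlgebraic z)
  open IntermediateField algebraAdjoinAdjoin in
  have h3 : Algebra.IsAlgebraic (Algebra.adjoin (Bf K x {s}) (Set.range (x s))) Ω :=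
    (IsFractionRing.comap_isAlgebraic_iff (A := Algebra.adjoin (Bf K x {s}) (Set.range (x s)))
      (K := IntermediateField.adjoin (Bf K x {s}) (Set.range (x s)))).mpr h2
  exact exists_isTranscendenceBasis_subset (Set.range (x s))

end alg

section ker

variable {K Ω : Type} [Field K] [Field Ω] [Algebra K Ω]

/-- The evaluation at a point in the chart. -/
noncomputable def ev (K : Type) {Ω : Type} [Field K] [Field Ω] [Algebra K Ω] (x : Pt N Ω) :
    MvPolynomial (Vr N) K →ₐ[K] Ω :=
  aeval fun v => x v.1 v.2.succ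

theorem ev_ch (x : Pt N Ω) (h1 : ∀ j, x j 0 = 1) (r : Fin k) (i : Fin (N r + 1)) :
    ev K x (ch K N r i) = x r i := by
  refine Fin.cases ?_ (fun j => ?_) i
  · rw [ch, Fin.cons_zero, map_one, h1]
  · rw [ch, Fin.cons_succ, ev, aeval_X]

theorem ev_Fm (c : Tx N d → K) (x : Pt N Ω) (h1 : ∀ j, x j 0 = 1) (i : Fin l) :
    ev K x (Fm (fun e => C (c e)) (ch K N) i) = Fm (fun e => algebraMap K Ω (c e)) x i := by
  have h := fv_map' (ev K x).toRingHom (fun m => C (c ⟨i, m⟩)) (ch K N)
  have h2 : (fun m => (ev K x).toRingHom (C (c ⟨i, m⟩))) =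
      fun m : Tn N (d i) => algebraMap K Ω (c ⟨i, m⟩) := by
    funext m
    exact (ev K x).commutes _
  have h3 : (fun r i => (ev K x).toRingHom (ch K N r i)) = x := by
    funext r i
    exact ev_ch x h1 r i
  rw [h2, h3] at h
  exact h

theorem idl_le (c : Tx N d → K) (x : Pt N Ω) (h1 : ∀ j, x j 0 = 1)
    (hx : ∀ i, Fm (fun e => algebraMap K Ω (c e)) x i = 0) :
    idl c ≤ RingHom.ker (ev K x) := by
  unfold idl
  rw [Ideal.span_le]
  rintro F ⟨i, rfl⟩
  show ev K x (Fm (fun e => C (c e)) (ch K N) i) = 0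
  rw [ev_Fm c x h1, hx]

theorem elim_of_ind (x : Pt N Ω) (s : Fin k)
    (h : AlgebraicIndependent K fun q : {q : Vr N // q.1 ≠ s} => x q.1.1 q.1.2.succ)
    (Φ : MvPolynomial (Vr N) K) (hΦ : Φ ∈ RingHom.ker (ev K x))
    (hv : ∀ v ∈ Φ.vars, v.1 ≠ s) : Φ = 0 := by
  obtain ⟨Ψ, rfl⟩ := exists_rename_eq_of_vars_subset_range Φ
    (Subtype.val : {q : Vr N // q.1 ≠ s} → Vr N) Subtype.val_injective (by
      intro v hv'
      exact ⟨⟨v, hv v hv'⟩, rfl⟩)
  have h1 : aeval (fun q : {q : Vr N // q.1 ≠ s} => x q.1.1 q.1.2.succ) Ψ = 0 := by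
    have h2 : ev K x (rename Subtype.val Ψ) = 0 := hΦ
    rw [ev, aeval_rename] at h2
    exact h2
  rw [(algebraicIndependent_iff.mp h) Ψ h1, map_zero]

end ker

section indep

variable {K Ω : Type} [Field K] [Field Ω] [Algebra K Ω]

/-- The coordinates of the factors other than `s` are independent. -/
theorem ind_of_trdeg (x : Pt N Ω) (h1 : ∀ j, x j 0 = 1) (s : Fin k)
    (_hx : Algebra.IsAlgebraic (Bf K x ∅) Ω)
    (t : Set Ω) (ht : IsTranscendenceBasis (Bf K x {s}) ((↑) : t → Ω))
    (hc : (Cardinal.mk {q : Vr N // q.1 ≠ s}) + Cardinal.mk t ≤ Algebra.trdeg K Ω)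
    (hfin : Finite t) :
    AlgebraicIndependent K fun q : {q : Vr N // q.1 ≠ s} => x q.1.1 q.1.2.succ := by
  have hm : ∀ q : {q : Vr N // q.1 ≠ s}, x q.1.1 q.1.2.succ ∈ Bf K x {s} := fun q =>
    IntermediateField.subset_adjoin _ _ ⟨q.1.1, q.2, _, rfl⟩
  let y : {q : Vr N // q.1 ≠ s} → Bf K x {s} := fun q => ⟨x q.1.1 q.1.2.succ, hm q⟩
  have h2 : Algebra.trdeg K (Bf K x {s}) + Cardinal.mk t = Algebra.trdeg K Ω := by
    rw [ht.cardinalMk_eq_trdeg]
    exact trdeg_add_eq K (Bf K x {s})
  have h3 : Cardinal.mk {q : Vr N // q.1 ≠ s} ≤ Algebra.trdeg K (Bf K x {s}) := by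
    rw [← h2] at hc
    exact (Cardinal.add_le_add_iff_of_lt_aleph0 (Cardinal.lt_aleph0_of_finite t)).mp hc
  have h4 : IntermediateField.adjoin K (Set.range y) = ⊤ := by
    apply IntermediateField.map_injective (Bf K x {s}).val
    rw [IntermediateField.adjoin_map, ← AlgHom.fieldRange_eq_map, IntermediateField.fieldRange_val]
    apply le_antisymm
    · rw [IntermediateField.adjoin_le_iff]
      rintro _ ⟨_, ⟨q, rfl⟩, rfl⟩
      exact hm q
    · unfold Bf
      rw [IntermediateField.adjoin_le_iff]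
      rintro _ ⟨j, hj, i, rfl⟩
      refine Fin.cases ?_ (fun e => ?_) i
      · rw [h1]
        exact one_mem _
      · exact IntermediateField.subset_adjoin _ _ ⟨y ⟨⟨j, e⟩, hj⟩, ⟨_, rfl⟩, rfl⟩
  have h5 : Algebra.IsAlgebraic (IntermediateField.adjoin K (Set.range y)) (Bf K x {s}) := by
    rw [h4]
    refine ⟨fun z => ?_⟩
    exact isAlgebraic_algebraMap (⟨z, trivial⟩ : (⊤ : IntermediateField K (Bf K x {s})))
  open IntermediateField algebraAdjoinAdjoin in
  have h6 : Algebra.IsAlgebraic (Algebra.adjoin K (Set.range y)) (Bf K x {s}) :=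
    (IsFractionRing.comap_isAlgebraic_iff (A := Algebra.adjoin K (Set.range y))
      (K := IntermediateField.adjoin K (Set.range y))).mpr h5
  have h7 := Algebra.IsAlgebraic.isTranscendenceBasis_of_le_trdeg_of_finite K y h3
  exact h7.1.map' (f := (Bf K x {s}).val) (Bf K x {s}).val.injective

end indep

/-- The indices of the independent elements. -/
abbrev Wi (N : Fin k → ℕ) (r : Fin k) := Option {q : Vr N // q.1 ≠ r}

section base

variable {K Ω : Type} [Field K] [Field Ω] [Algebra K Ω]

open Classical in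
/-- The point with the coordinates `g` in the factors other than `r`. -/
noncomputable def bp (r : Fin k) (g : Wi N r → Ω) : Pt N Ω := fun j =>
  Fin.cons 1 fun e => if h : j ≠ r then g (some ⟨⟨j, e⟩, h⟩) else 0

theorem bp_zero (r : Fin k) (g : Wi N r → Ω) (j : Fin k) : bp r g j 0 = 1 := rfl

theorem bp_succ (r : Fin k) (g : Wi N r → Ω) (j : Fin k) (h : j ≠ r) (e : Fin (N j)) :
    bp r g j e.succ = g (some ⟨⟨j, e⟩, h⟩) := by
  show (if h : j ≠ r then g (some ⟨⟨j, e⟩, h⟩) else 0) = _
  rw [dif_pos h]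

theorem exists_z [IsAlgClosed Ω] (h : Ty N d) (c : Tx N d → Ω) (r : Fin k) (hr : N r = l + 1)
    (y : Pt N Ω) (t : Ω) :
    ∃ z : Fin (N r + 1) → Ω, z ≠ 0 ∧ (∀ i, Fm c (Function.update y r z) i = 0) ∧
      z 1 = t * z 0 := by
  have h10 : (1 : Fin (N r + 1)) ≠ 0 := by
    intro h
    have h1 : 1 % (N r + 1) = 0 := congrArg Fin.val h
    rw [Nat.mod_eq_of_lt (by omega)] at h1
    omega
  let f0 : Fin l → MvPolynomial (Fin (N r + 1)) Ω := fun i =>
    fv (fun m => C (c ⟨i, m⟩)) (Function.update (fun j e => C (y j e)) r X)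
  let f : Fin (l + 1) → MvPolynomial (Fin (N r + 1)) Ω := Fin.cons (X 1 - C t * X 0) f0
  have hev : ∀ (z : Fin (N r + 1) → Ω) i, eval z (f0 i) = Fm c (Function.update y r z) i := by
    intro z i
    have h1 := fv_map' (eval z) (fun m : Tn N (d i) => C (c ⟨i, m⟩))
      (Function.update (fun j e => C (y j e)) r X)
    have h2 : (fun j e => eval z ((Function.update (fun j e => C (y j e)) r X :
        Pt N (MvPolynomial (Fin (N r + 1)) Ω)) j e)) = Function.update y r z := by
      funext j e
      by_cases hj : j = r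
      · subst hj
        rw [Function.update_self, Function.update_self, eval_X]
      · rw [Function.update_of_ne hj, Function.update_of_ne hj, eval_C]
    rw [h2] at h1
    simp only [eval_C] at h1
    exact h1
  obtain ⟨z, hz0, hz⟩ := Pool.Agent.Helper76.CY.exists_common_zero f (by
    intro i
    refine Fin.cases ?_ (fun i => ?_) i
    · show eval 0 (X 1 - C t * X 0) = 0
      simp
    · show eval 0 (f0 i) = 0
      rw [hev]
      have h1 := fv_scale' (fun m => c ⟨i, m⟩) y r 0
      rw [zero_pow (h.pos i r).ne', zero_mul] at h1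
      have h2 : (fun i => 0 * y r i) = (0 : Fin (N r + 1) → Ω) := by
        funext i
        exact zero_mul _
      rw [h2] at h1
      exact h1) (by
    rw [Fintype.card_fin]
    omega)
  refine ⟨z, hz0, fun i => ?_, ?_⟩
  · rw [← hev]
    exact hz i.succ
  · have h1 : eval z (X 1 - C t * X 0) = 0 := hz 0
    simp only [map_sub, map_mul, eval_X, eval_C] at h1
    exact sub_eq_zero.mp h1

/-- The generic point. -/
theorem exists_pt [IsAlgClosed Ω] (h : Ty N d) (c : Tx N d → K) (hc : AllNice K c) (r : Fin k)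
    (hr : N r = l + 1) (g : Wi N r → Ω) (hg : AlgebraicIndependent K g) :
    ∃ x : Pt N Ω, GenPt K c r x ∧ Nice (fun e => algebraMap K Ω (c e)) x ∧ (∀ j, x j 0 = 1) ∧
      (∀ q : {q : Vr N // q.1 ≠ r}, x q.1.1 q.1.2.succ = g (some q)) ∧ x r 1 = g none := by
  obtain ⟨z, hz0, hz, hz1⟩ := exists_z h (fun e => algebraMap K Ω (c e)) r hr (bp r g) (g none)
  have hgen : ∀ u : Ω, (∃ i, u * z i = 1) →
      GenPt K c r (Function.update (bp r g) r fun i => u * z i) := by
    rintro u ⟨i0, hi0⟩
    refine ⟨fun i => ?_, fun j hj => ?_, ⟨i0, ?_⟩, ?_⟩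
    · have h1 := fv_scale' (fun m => algebraMap K Ω (c ⟨i, m⟩)) (Function.update (bp r g) r z) r u
      have h2 : fv (fun m => algebraMap K Ω (c ⟨i, m⟩)) (Function.update (bp r g) r z) = 0 := hz i
      rw [h2, mul_zero, Function.update_idem, Function.update_self] at h1
      exact h1
    · rw [Function.update_of_ne hj, bp_zero]
    · rw [Function.update_self]
      exact hi0
    · have h1 : (fun q : {q : Vr N // q.1 ≠ r} => (Function.update (bp r g) r fun i => u * z i)
          q.1.1 q.1.2.succ) = fun q => g (some q) := by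
        funext q
        rw [Function.update_of_ne q.2]
        exact bp_succ r g _ q.2 _
      rw [h1]
      exact hg.comp some (Option.some_injective _)
  obtain ⟨i, hi⟩ : ∃ i, z i ≠ 0 := by
    by_contra hcon
    push Not at hcon
    exact hz0 (funext hcon)
  have hz00 : z 0 ≠ 0 := by
    intro h0
    apply (hc r hr Ω _ (hgen (z i)⁻¹ ⟨i, inv_mul_cancel₀ hi⟩)).2
    rw [Function.update_self]
    refine ⟨?_, ?_⟩
    · show (z i)⁻¹ * z 0 = 0
      rw [h0, mul_zero]
    · show (z i)⁻¹ * z 1 = 0
      rw [hz1, h0, mul_zero, mul_zero]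
  have hg0 := hgen (z 0)⁻¹ ⟨0, inv_mul_cancel₀ hz00⟩
  refine ⟨_, hg0, (hc r hr Ω _ hg0).1, fun j => ?_, fun q => ?_, ?_⟩
  · by_cases hj : j = r
    · subst hj
      rw [Function.update_self]
      exact inv_mul_cancel₀ hz00
    · rw [Function.update_of_ne hj, bp_zero]
  · rw [Function.update_of_ne q.2]
    exact bp_succ r g _ q.2 _
  · rw [Function.update_self]
    show (z 0)⁻¹ * z 1 = _
    rw [hz1, mul_comm (g none), ← mul_assoc, inv_mul_cancel₀ hz00, one_mul]

end base

variable {K : Type} [Field K]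

theorem card_ne (N : Fin k → ℕ) (s : Fin k) :
    Fintype.card {q : Vr N // q.1 ≠ s} + N s = ∑ r, N r := by
  have h1 : Fintype.card {q : Vr N // ¬ q.1 = s} =
      Fintype.card (Vr N) - Fintype.card {q : Vr N // q.1 = s} :=
    Fintype.card_subtype_compl _
  have h2 : Fintype.card (Fin (N s)) = Fintype.card {q : Vr N // q.1 = s} := by
    refine Fintype.card_congr (Equiv.ofBijective
      (fun e : Fin (N s) => (⟨⟨s, e⟩, rfl⟩ : {q : Vr N // q.1 = s})) ⟨?_, ?_⟩)
    · intro e e' he
      simpa using he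
    · rintro ⟨⟨j, e⟩, hj⟩
      change j = s at hj
      subst hj
      exact ⟨e, rfl⟩
  have h3 : Fintype.card (Vr N) = ∑ r, N r := by
    rw [Fintype.card_sigma]
    simp
  have h4 : Fintype.card {q : Vr N // q.1 = s} ≤ Fintype.card (Vr N) := Fintype.card_subtype_le _
  rw [Fintype.card_fin] at h2
  have h5 : Fintype.card {q : Vr N // q.1 ≠ s} = Fintype.card {q : Vr N // ¬ q.1 = s} := rfl
  omega

/-- The transcendence degree over the field of the other factors is at most `N s - l`. -/
theorem card_basis [CharZero K] {Ω : Type} [Field Ω] [Algebra K Ω] (h : Ty N d) (c : Tx N d → K)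
    (x : Pt N Ω) (hx : ∀ i, Fm (fun e => algebraMap K Ω (c e)) x i = 0)
    (hn : Nice (fun e => algebraMap K Ω (c e)) x) (s : Fin k) (h1 : x s 0 = 1)
    (t : Set Ω) (ht : t ⊆ Set.range (x s))
    (hb : AlgebraicIndependent (Bf K x {s}) ((↑) : t → Ω)) :
    Finite t ∧ Cardinal.mk t ≤ (N s - l : ℕ) := by
  have hf : t.Finite := (Set.finite_range (x s)).subset ht
  refine ⟨hf, ?_⟩
  rcases h.dim s with hs | hs
  · have he : IsEmpty t := by
      refine ⟨fun y => ?_⟩
      obtain ⟨i, hi⟩ := ht y.2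
      have h2 : Transcendental (Bf K x {s}) (y : Ω) := hb.transcendental y
      apply h2
      rw [← hi]
      exact Pool.Agent.Helper76.M.alg_of_nice h c x hx hn s hs h1 i
    rw [Cardinal.mk_eq_zero t]
    exact bot_le
  · have he : Subsingleton t := by
      refine ⟨fun y y' => ?_⟩
      by_contra hne
      obtain ⟨i, hi⟩ := ht y.2
      obtain ⟨i', hi'⟩ := ht y'.2
      apply Pool.Agent.Helper76.M.dep_of_nice h c x hx hn s hs h1 i i'
      have h2 := hb.comp ![y, y'] (by
        intro a b hab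
        fin_cases a <;> fin_cases b <;> simp_all)
      have h3 : (fun y : t => (y : Ω)) ∘ ![y, y'] = ![x s i, x s i'] := by
        funext a
        fin_cases a
        · exact hi.symm
        · exact hi'.symm
      rw [← h3]
      exact h2
    have h3 : N s - l = 1 := by omega
    rw [h3, Nat.cast_one]
    exact Cardinal.le_one_iff_subsingleton.mpr he

theorem exists_dom [CharZero K] (h : Ty N d) (hR : ∃ r, N r = l + 1) (c : Tx N d → K)
    (hc : AllNice K c) : ∃ P, IsDom (idl c) (∑ r, N r - l) P := by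
  obtain ⟨r, hr⟩ := hR
  let R0 := MvPolynomial (Wi N r) K
  let Ω := AlgebraicClosure (FractionRing R0)
  let g : Wi N r → Ω := fun i => algebraMap R0 Ω (X i)
  have hinj0 : Function.Injective (algebraMap R0 Ω) := by
    rw [IsScalarTower.algebraMap_eq R0 (FractionRing R0) Ω]
    exact (algebraMap (FractionRing R0) Ω).injective.comp (IsFractionRing.injective _ _)
  have hfs : FaithfulSMul R0 Ω := (faithfulSMul_iff_algebraMap_injective R0 Ω).mpr hinj0
  have halg0 : Algebra.IsAlgebraic R0 Ω :=
    (IsFractionRing.comap_isAlgebraic_iff (A := R0) (K := FractionRing R0)).mpr inferInstance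
  have hg : IsTranscendenceBasis K g :=
    (IsTranscendenceBasis.mvPolynomial (Wi N r) K).algebraMap_comp (A := Ω)
  obtain ⟨x, hgen, hn, h1, hxs, hxr⟩ := exists_pt h c hc r hr g hg.1
  have hcard : Fintype.card (Wi N r) = ∑ r, N r - l := by
    have := card_ne N r
    rw [Fintype.card_option]
    omega
  have htr : Algebra.trdeg K Ω = (∑ r, N r - l : ℕ) := by
    rw [← hg.cardinalMk_eq_trdeg, Cardinal.mk_fintype, hcard]
  have hgx : ∀ i : Wi N r, ∃ q : Vr N, g i = x q.1 q.2.succ := by
    rintro (_ | q)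
    · obtain ⟨n, hn'⟩ : ∃ n, N r = n + 1 := ⟨l, hr⟩
      have h10 : (1 : Fin (N r + 1)) ≠ 0 := by
        intro h
        have h1 : 1 % (N r + 1) = 0 := congrArg Fin.val h
        rw [Nat.mod_eq_of_lt (by omega)] at h1
        omega
      refine ⟨⟨r, (1 : Fin (N r + 1)).pred h10⟩, ?_⟩
      rw [← hxr]
      show x r 1 = x r ((1 : Fin (N r + 1)).pred h10).succ
      rw [Fin.succ_pred]
    · exact ⟨q.1, (hxs q).symm⟩
  have hL : Algebra.IsAlgebraic (Bf K x ∅) Ω := by
    refine ⟨fun z => ?_⟩
    refine isAlg_mono ?_ (hg.isAlgebraic_field.isAlgebraic z)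
    rw [IntermediateField.adjoin_le_iff]
    rintro _ ⟨i, rfl⟩
    obtain ⟨q, hq⟩ := hgx i
    rw [hq]
    exact IntermediateField.subset_adjoin _ _ ⟨q.1, Set.notMem_empty _, _, rfl⟩
  have hind : ∀ s : Fin k,
      AlgebraicIndependent K fun q : {q : Vr N // q.1 ≠ s} => x q.1.1 q.1.2.succ := by
    intro s
    obtain ⟨t, ht, hb⟩ := exists_basis x s hL
    obtain ⟨hfin, hle⟩ := card_basis h c x hgen.eq hn s (h1 s) t ht hb.1
    refine ind_of_trdeg x h1 s hL t hb ?_ hfin
    rw [htr, Cardinal.mk_fintype]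
    refine (add_le_add_right hle _).trans ?_
    rw [← Nat.cast_add, Nat.cast_le]
    have h2 := card_ne N s
    have h3 := h.dim s
    omega
  refine ⟨RingHom.ker (ev K x), RingHom.ker_isPrime _, idl_le c x h1 hgen.eq,
    fun s Φ hΦ hv => elim_of_ind x s (hind s) Φ hΦ hv, ?_⟩
  rw [← htr]
  have hinj : Function.Injective (Ideal.kerLiftAlg (ev K x)) := Ideal.kerLiftAlg_injective _
  apply le_antisymm
  · exact trdeg_le_of_injective (Ideal.kerLiftAlg (ev K x)) hinj
  · choose q hq using hgx
    have h2 : AlgebraicIndependent K fun i : Wi N r =>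
        Ideal.Quotient.mk (RingHom.ker (ev K x)) (X (q i)) := by
      refine AlgebraicIndependent.of_comp (Ideal.kerLiftAlg (ev K x)) ?_
      have h3 : (Ideal.kerLiftAlg (ev K x)) ∘ (fun i : Wi N r =>
          Ideal.Quotient.mk (RingHom.ker (ev K x)) (X (q i))) = g := by
        funext i
        rw [hq]
        show Ideal.kerLiftAlg (ev K x) (Ideal.Quotient.mk _ (X (q i))) = _
        rw [Ideal.kerLiftAlg_mk, ev, aeval_X]
      rw [h3]
      exact hg.1
    rw [← hg.cardinalMk_eq_trdeg]
    exact h2.cardinalMk_le_trdeg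

end Pool.Agent.Helper64.M
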